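import Pool.Agent.Helper84.FED.Defs
import Pool.Agent.Helper84.FED.Corr

open Pool.Agent.Helper84.FED

namespace Pool.Agent.Results.MP_613513_lc.WOneHard

/-- **Parameterized (polynomial-time) reduction from `k`-Clique to `T_{h+1}`-Free Edge Deletion
with respect to the solution size alone.** There is a function `R`, computed by a Turing machine
(Mathlib's `TM2`) in polynomial time, that maps each instance `(M, k)` of Clique to an instance
`(M', k', h')` of the deletion problem with `k', h' ≥ 1` and `k' ≤ 3 k² + 1`, such that the graph
of `M` has a clique on `k` vertices if and only if some set of at most `k'` edges of the graph of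
`M'` can be deleted so that all components have at most `h'` vertices. -/
theorem result : ∃ R : List (List Bool) × ℕ → List (List Bool) × ℕ × ℕ,
    Nonempty (Turing.TM2ComputableInPolyTime cliqueCode deletionCode R) ∧
    ∀ I, 1 ≤ (R I).2.1 ∧ 1 ≤ (R I).2.2 ∧ (R I).2.1 ≤ 3 * I.2 ^ 2 + 1 ∧
      (IsYesClique I ↔ IsYesDeletion (R I)) := main

end Pool.Agent.Results.MP_613513_lc.WOneHard
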